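import Pool.Agent.Helper38.VF.Goals2

/-!
# VTF-KUR: `ℓ²(Fin k × A)` is `ℓ²(A)^k`
-/

set_option autoImplicit false

namespace Pool.Agent.Helper48.VF

open Pool.Agent.Helper38.VF

universe u

theorem p2 : (0 : ℝ) < (2 : ENNReal).toReal := by norm_num

theorem bound1 {A : Type u} {k : ℕ} (e : Fin k → L2 A) (s : Finset (Fin k × A)) :
    ∑ z ∈ s, ‖e z.1 z.2‖ ^ (2 : ENNReal).toReal ≤ ∑ i, ‖e i‖ ^ (2 : ENNReal).toReal := by
  classical
  calc ∑ z ∈ s, ‖e z.1 z.2‖ ^ (2 : ENNReal).toReal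
      ≤ ∑ z ∈ (Finset.univ ×ˢ s.image Prod.snd), ‖e z.1 z.2‖ ^ (2 : ENNReal).toReal := by
        apply Finset.sum_le_sum_of_subset_of_nonneg
        · intro z hz
          simp only [Finset.mem_product, Finset.mem_univ, true_and, Finset.mem_image]
          exact ⟨z, hz, rfl⟩
        · intro z _ _
          exact Real.rpow_nonneg (norm_nonneg _) _
    _ = ∑ i, ∑ b ∈ s.image Prod.snd, ‖e i b‖ ^ (2 : ENNReal).toReal := Finset.sum_product _ _ _
    _ ≤ _ := Finset.sum_le_sum fun i _ => lp.sum_rpow_le_norm_rpow p2 (e i) _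

theorem bound2 {A : Type u} {k : ℕ} (f : L2 (Fin k × A)) (i : Fin k) (s : Finset A) :
    ∑ b ∈ s, ‖f (i, b)‖ ^ (2 : ENNReal).toReal ≤ ‖f‖ ^ (2 : ENNReal).toReal := by
  classical
  have h := lp.sum_rpow_le_norm_rpow p2 f
    (s.map ⟨fun b => (i, b), fun b b' h => (Prod.mk.inj h).2⟩)
  rw [Finset.sum_map] at h
  exact h

/-- The function on the product. -/
noncomputable def fwd {A : Type u} {k : ℕ} (e : Fin k → L2 A) : L2 (Fin k × A) :=
  ⟨fun z => e z.1 z.2, memℓp_gen' (bound1 e)⟩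

/-- The coordinates. -/
noncomputable def bwd {A : Type u} {k : ℕ} (f : L2 (Fin k × A)) (i : Fin k) : L2 A :=
  ⟨fun b => f (i, b), memℓp_gen' (bound2 f i)⟩

/-- The linear equivalence. -/
noncomputable def lin (A : Type u) (k : ℕ) : (Fin k → L2 A) ≃ₗ[ℝ] L2 (Fin k × A) where
  toFun := fwd
  invFun := bwd
  map_add' e e' := by
    ext z
    rfl
  map_smul' r e := by
    ext z
    rfl
  left_inv e := by
    funext i
    ext b
    rfl
  right_inv f := by
    ext z
    rfl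

theorem lin_norm {A : Type u} {k : ℕ} (e : Fin k → L2 A) : ‖lin A k e‖ ≤ (k : ℝ) * ‖e‖ := by
  apply lp.norm_le_of_forall_sum_le p2 (by positivity)
  intro s
  refine (bound1 e s).trans ?_
  have h1 : ∀ i, ‖e i‖ ^ (2 : ENNReal).toReal ≤ ‖e‖ ^ (2 : ENNReal).toReal := fun i =>
    Real.rpow_le_rpow (norm_nonneg _) (norm_le_pi_norm e i) p2.le
  refine (Finset.sum_le_sum fun i _ => h1 i).trans ?_
  rw [Finset.sum_const, Finset.card_univ, Fintype.card_fin, nsmul_eq_mul,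
    Real.mul_rpow (by positivity) (norm_nonneg _)]
  apply mul_le_mul_of_nonneg_right _ (by positivity)
  have h2 : (2 : ENNReal).toReal = ((2 : ℕ) : ℝ) := by norm_num
  rw [h2, Real.rpow_natCast]
  have h3 : k ≤ k ^ 2 := Nat.le_self_pow (by norm_num) k
  exact_mod_cast h3

theorem bwd_norm {A : Type u} {k : ℕ} (f : L2 (Fin k × A)) : ‖(lin A k).symm f‖ ≤ 1 * ‖f‖ := by
  rw [one_mul, pi_norm_le_iff_of_nonneg (norm_nonneg _)]
  intro i
  apply lp.norm_le_of_forall_sum_le p2 (norm_nonneg _)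
  intro s
  exact bound2 f i s

theorem kur : KurStmt.{u} := by
  intro A k
  refine ⟨(lin A k).toContinuousLinearEquivOfBounds k 1 lin_norm bwd_norm, ?_⟩
  intro e i b
  rfl

end Pool.Agent.Helper48.VF
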