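import Pool.Agent.Helper27.VF.Goals

/-!
# VF-TOC: components outside the torso have finitely many neighbours
-/

set_option autoImplicit false

namespace Pool.Agent.Helper48.VF

open Pool.Agent.Helper27.VF

universe u

theorem toc (h1 : PthStmt.{u}) (h2 : ToaStmt.{u}) (h3 : OrbStmt.{u}) (h4 : FrdStmt.{u}) :
    TocStmt.{u} := by
  intro A W _ _ G G₀ w p hS k hM htf z hz
  obtain ⟨hinv, F, hF, hFK, hcov⟩ := h2 A W G G₀ w p hS k hM htf
  obtain ⟨-, -, -, hB⟩ := h3 A W G G₀ w p hS k hM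
  obtain ⟨-, hfree⟩ := h4 A W G G₀ w p hS k hM htf
  have hz1 : (∃ d ∈ DD A G p k, z ∈ d.2) ∧ ∀ d ∈ DD A G p k, z ∉ sep d := by
    unfold Kp at hz
    simp only [Set.mem_setOf_eq, not_or, not_forall, not_exists, not_and] at hz
    obtain ⟨⟨d, hd, hzd⟩, hz2⟩ := hz
    exact ⟨⟨d, hd, not_not.1 hzd⟩, hz2⟩
  obtain ⟨⟨d, hd, hzd⟩, -⟩ := hz1
  have hdS : d ∈ SS A G p k := hd.1
  have hdc : IsCut G d := hdS.1
  have hstay : ∀ z', Out G (Kp A G p k) z z' → z' ∈ d.2 := by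
    intro z' hz'
    induction hz' with
    | refl => exact hzd
    | tail _ hbc ih =>
      obtain ⟨hadj, hnK⟩ := hbc
      rename_i b c _
      have hc1 : c ∉ d.1 := fun hc1 => hdc.no c hc1 b ih hadj.symm
      have hc2 : c ∉ sep d := fun hc2 => hnK (Or.inr ⟨d, hd, hc2⟩)
      by_contra hc3
      exact hc2 (mem_sep.2 ⟨hc1, hc3⟩)
  have hfin : {y | y ∈ Kp A G p k ∧ y ∈ d.2}.Finite := by
    have hsub : {y | y ∈ Kp A G p k ∧ y ∈ d.2} ⊆
        ⋃ f ∈ F, ⋃ e ∈ {c | c ∈ SS A G p k ∧ w ∉ c.2 ∧ f ∉ c.1},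
          {y | ∃ g : A, g • f = y ∧ tr g⁻¹ d = e} := by
      rintro y ⟨hyK, hyd⟩
      obtain ⟨g, hg, f, hf, hgf⟩ := hcov y hyK
      have he : tr g⁻¹ d ∈ DD A G p k := hB g⁻¹ ((BB A G p k).inv_mem hg) d hd
      have hec : IsCut G (tr g⁻¹ d) := he.1.1
      have hf2 : f ∈ (tr g⁻¹ d).2 := by
        unfold tr
        simp only [Set.mem_setOf_eq, inv_inv]
        rw [hgf]
        exact hyd
      simp only [Set.mem_iUnion]
      refine ⟨f, hf, tr g⁻¹ d, ⟨he.1, ?_, fun hf1 => hec.disj f hf1 hf2⟩, g, hgf, rfl⟩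
      intro hw
      have hw' : (1 : A) • w ∈ (tr g⁻¹ d).2 := by rwa [one_smul]
      have := fact1' hS hec hw'
      exact (inn_snd hS hec).1 this he.2.1
    refine Set.Finite.subset ?_ hsub
    refine hF.biUnion fun f _ => ?_
    refine (h1 A W G G₀ w p hS k hM w f).biUnion fun e _ => ?_
    refine Set.Subsingleton.finite ?_
    rintro y ⟨g, hgy, hge⟩ y' ⟨g', hgy', hge'⟩
    have : tr (g' * g⁻¹) d = d := by
      rw [← tr_tr, hge, ← hge', tr_tr, mul_inv_cancel, tr_one]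
    have := hfree _ d hd this
    have hgg : g' = g := by
      rwa [mul_inv_eq_one] at this
    rw [← hgy, ← hgy', hgg]
  refine (hfin.union hdc.fin).subset ?_
  rintro y ⟨hyK, z', hz', hadj⟩
  have hz'2 := hstay z' hz'
  have hy1 : y ∉ d.1 := fun hy1 => hdc.no y hy1 z' hz'2 hadj.symm
  by_cases hy2 : y ∈ d.2
  · exact Or.inl ⟨hyK, hy2⟩
  · exact Or.inr (mem_sep.2 ⟨hy1, hy2⟩)

end Pool.Agent.Helper48.VF
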